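import Pool.Agent.H18.TXB.Targets
import Pool.Agent.H8.TX.Basic
import Pool.Agent.H77.BKH.FIX

/-!
# Threefolds by backward heights, row CNV: averages over a larger field

The absolute values over `K₁` are those of `F`, composed with automorphisms over `K₀` which give
the embeddings of `K₁` over `K₀`. Both sums of heights are sums over families of automorphisms over
`K₀`, and these families take each value in the orbit of the point equally often.
-/

set_option autoImplicit false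

open MvPolynomial
open Pool.Agent.H18.HIT
open Pool.Agent.H8.ZA (HFam Const NA)
open Pool.Agent.H8.TX
open Pool.Agent.H18.TE (lg Gc)
open Pool.Agent.H18.TXB

namespace Pool.Agent.H11.TXB

/-! ## Counting -/

section count

variable {α β V : Type} [Fintype α] [Fintype β]

open Classical in
/-- the number of the members of a family with a given value -/
noncomputable def nb {α V : Type} [Fintype α] (A : α → V) (v : V) : ℕ :=
  (Finset.univ.filter fun a => A a = v).card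

theorem sum_eq (A : α → V) (B : β → V) (cA cB : ℕ) (hB0 : cB ≠ 0) (hA : ∀ b, nb A (B b) = cA)
    (hB : ∀ a, nb B (A a) = cB) (φ : V → ℝ) :
    (Fintype.card β : ℝ) * ∑ a, φ (A a) = Fintype.card α * ∑ b, φ (B b) := by
  classical
  have key : ∀ ψ : V → ℝ, (cB : ℝ) * ∑ a, ψ (A a) = cA * ∑ b, ψ (B b) := by
    intro ψ
    have h1 : ∑ a, ∑ b, (if A a = B b then ψ (A a) else 0) = (cB : ℝ) * ∑ a, ψ (A a) := by
      rw [Finset.mul_sum]
      refine Finset.sum_congr rfl fun a _ => ?_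
      rw [← Finset.sum_filter, Finset.sum_const, nsmul_eq_mul, ← hB a]
      congr 2
      unfold nb
      congr 1
      ext b
      simp only [Finset.mem_filter, Finset.mem_univ, true_and]
      exact eq_comm
    have h2 : ∑ b, ∑ a, (if A a = B b then ψ (A a) else 0) = (cA : ℝ) * ∑ b, ψ (B b) := by
      rw [Finset.mul_sum]
      refine Finset.sum_congr rfl fun b _ => ?_
      have h3 : ∀ a, (if A a = B b then ψ (A a) else 0) = if A a = B b then ψ (B b) else 0 := by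
        intro a
        by_cases h : A a = B b
        · rw [if_pos h, if_pos h, h]
        · rw [if_neg h, if_neg h]
      rw [Finset.sum_congr rfl fun a _ => h3 a, ← Finset.sum_filter, Finset.sum_const,
        nsmul_eq_mul, ← hA b]
      rfl
    rw [← h1, Finset.sum_comm, h2]
  have k1 := key fun _ => 1
  have k2 := key φ
  simp only [Finset.sum_const, nsmul_eq_mul, mul_one, Finset.card_univ] at k1
  have hc : (cB : ℝ) ≠ 0 := Nat.cast_ne_zero.2 hB0
  apply mul_left_cancel₀ hc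
  calc (cB : ℝ) * ((Fintype.card β : ℝ) * ∑ a, φ (A a))
      = Fintype.card β * (cB * ∑ a, φ (A a)) := by ring
    _ = (cA * Fintype.card β) * ∑ b, φ (B b) := by rw [k2]; ring
    _ = (cB * Fintype.card α) * ∑ b, φ (B b) := by rw [k1]
    _ = cB * (Fintype.card α * ∑ b, φ (B b)) := by ring

variable {G : Type} [Group G] [MulAction G V]

theorem nb_le {A : α → V} (τ : G) (π : α → α) (hπ : Function.Injective π)
    (h : ∀ a, A (π a) = τ • A a) (v : V) : nb A v ≤ nb A (τ • v) := by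
  classical
  unfold nb
  apply Finset.card_le_card_of_injOn π _ hπ.injOn
  intro a ha
  simp only [Finset.coe_filter, Finset.mem_univ, true_and, Set.mem_ofPred_eq] at ha ⊢
  rw [h a, ha]

theorem nb_smul {A : α → V} (hA : ∀ τ : G, ∃ π : α → α, Function.Injective π ∧
    ∀ a, A (π a) = τ • A a) (τ : G) (v : V) : nb A (τ • v) = nb A v := by
  obtain ⟨π, h1, h2⟩ := hA τ
  obtain ⟨π', h3, h4⟩ := hA τ⁻¹
  apply le_antisymm _ (nb_le τ π h1 h2 v)
  have h5 := nb_le τ⁻¹ π' h3 h4 (τ • v)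
  rwa [inv_smul_smul] at h5

theorem sum_inv [Nonempty α] [Nonempty β] (A : α → V) (B : β → V)
    (hA : ∀ τ : G, ∃ π : α → α, Function.Injective π ∧ ∀ a, A (π a) = τ • A a)
    (hB : ∀ τ : G, ∃ π : β → β, Function.Injective π ∧ ∀ b, B (π b) = τ • B b)
    (hAB : ∀ a b, ∃ τ : G, B b = τ • A a) (φ : V → ℝ) :
    (Fintype.card β : ℝ) * ∑ a, φ (A a) = Fintype.card α * ∑ b, φ (B b) := by
  classical
  obtain ⟨a₀⟩ := ‹Nonempty α›
  obtain ⟨b₀⟩ := ‹Nonempty β›
  refine sum_eq A B (nb A (A a₀)) (nb B (B b₀)) ?_ ?_ ?_ φ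
  · unfold nb
    rw [Finset.card_ne_zero]
    exact ⟨b₀, Finset.mem_filter.2 ⟨Finset.mem_univ _, rfl⟩⟩
  · intro b
    obtain ⟨τ, hτ⟩ := hAB a₀ b
    rw [hτ]
    exact nb_smul hA τ _
  · intro a
    obtain ⟨τ, hτ⟩ := hAB a b₀
    rw [hτ]
    exact (nb_smul hB τ _).symm

end count

/-! ## Automorphisms -/

variable {K₀ K₁ : IntermediateField ℚ Qb}

/-- An automorphism which fixes `K`. -/
noncomputable def mk {K : IntermediateField ℚ Qb} (τ : Qb ≃+* Qb) (h : ∀ x ∈ K, τ x = x) :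
    Qb ≃ₐ[K] Qb :=
  AlgEquiv.ofRingEquiv (f := τ) fun x => h x x.2

theorem mk_apply {K : IntermediateField ℚ Qb} (τ : Qb ≃+* Qb) (h : ∀ x ∈ K, τ x = x) (x : Qb) :
    mk τ h x = τ x := rfl

theorem fix_mem {K : IntermediateField ℚ Qb} (τ : Qb ≃ₐ[K] Qb) {x : Qb} (hx : x ∈ K) : τ x = x :=
  τ.commutes ⟨x, hx⟩

/-- The restriction of an automorphism to `K₁`. -/
noncomputable def res (K₁ : IntermediateField ℚ Qb) (σ : Qb ≃ₐ[K₀] Qb) : K₁ →ₐ[ℚ] Qb :=
  ((σ.toAlgHom.restrictScalars ℚ : Qb →ₐ[ℚ] Qb)).comp K₁.val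

theorem res_apply (σ : Qb ≃ₐ[K₀] Qb) (x : K₁) : res K₁ σ x = σ x := rfl

/-- The embeddings of `K₁` over `K₀`. -/
abbrev J (K₀ K₁ : IntermediateField ℚ Qb) : Type :=
  Set.range (res K₁ : (Qb ≃ₐ[K₀] Qb) → (K₁ →ₐ[ℚ] Qb))

/-- An automorphism which gives the embedding. -/
noncomputable def ch (j : J K₀ K₁) : Qb ≃ₐ[K₀] Qb := j.2.choose

theorem res_ch (j : J K₀ K₁) : res K₁ (ch j) = j.1 := j.2.choose_spec

/-- The action on the embeddings. -/
noncomputable def mv (τ : Qb ≃ₐ[K₀] Qb) (j : J K₀ K₁) : J K₀ K₁ :=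
  ⟨res K₁ (τ * ch j), ⟨τ * ch j, rfl⟩⟩

theorem ch_mv (τ : Qb ≃ₐ[K₀] Qb) (j : J K₀ K₁) {x : Qb} (hx : x ∈ K₁) :
    ch (mv τ j) x = τ (ch j x) := by
  have h := res_ch (mv τ j)
  have h2 := DFunLike.congr_fun h ⟨x, hx⟩
  rw [res_apply] at h2
  exact h2

theorem mv_inj (τ : Qb ≃ₐ[K₀] Qb) : Function.Injective (mv τ : J K₀ K₁ → J K₀ K₁) := by
  intro j j' h
  apply Subtype.ext
  rw [← res_ch j, ← res_ch j']
  apply AlgHom.ext
  intro x
  rw [res_apply, res_apply]
  apply τ.injective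
  rw [← ch_mv τ j x.2, ← ch_mv τ j' x.2, h]

/-- The correction over `K₁`. -/
noncomputable def co (τ : Qb ≃ₐ[K₀] Qb) (j : J K₀ K₁) : Qb ≃ₐ[K₁] Qb :=
  mk (((ch (mv τ j))⁻¹ * (τ * ch j) : Qb ≃ₐ[K₀] Qb) : Qb ≃+* Qb) (by
    intro x hx
    change (ch (mv τ j))⁻¹ (τ (ch j x)) = x
    rw [← ch_mv τ j hx]
    exact (ch (mv τ j)).symm_apply_apply x)

theorem co_apply (τ : Qb ≃ₐ[K₀] Qb) (j : J K₀ K₁) (x : Qb) :
    ch (mv τ j) (co τ j x) = τ (ch j x) := by
  change ch (mv τ j) ((ch (mv τ j))⁻¹ (τ (ch j x))) = τ (ch j x)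
  exact (ch (mv τ j)).apply_symm_apply _

/-- An automorphism over `K₁` as an automorphism over `K₀`. -/
noncomputable def dn (hle : K₀ ≤ K₁) (g : Qb ≃ₐ[K₁] Qb) : Qb ≃ₐ[K₀] Qb :=
  mk (g : Qb ≃+* Qb) fun _ hx => fix_mem g (hle hx)

/-! ## The absolute values -/

theorem norm_mem [FiniteDimensional ℚ K₁] [Fintype (J K₀ K₁)] {x : Qb} (hx : x ∈ K₁) :
    ∏ j : J K₀ K₁, ch j x ∈ K₀ := by
  apply Pool.Agent.H77.BKH.pf_FIX
  intro τ
  rw [map_prod]
  have hb : Function.Bijective (mv τ : J K₀ K₁ → J K₀ K₁) :=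
    Finite.injective_iff_bijective.1 (mv_inj τ)
  rw [← hb.prod_comp fun j => ch j x]
  exact Finset.prod_congr rfl fun j _ => (ch_mv τ j hx).symm

/-- The absolute values over `K₁`. -/
noncomputable def fam (F : HFam K₀) [FiniteDimensional ℚ K₁] [Fintype (J K₀ K₁)]
    [Nonempty (J K₀ K₁)] : HFam K₁ where
  ι := F.ι × J K₀ K₁
  abv p := (F.abv p.1).comp (f := ((ch p.2 : Qb ≃+* Qb) : Qb →+* Qb)) (ch p.2).injective
  arch := F.arch ×ˢ Finset.univ
  arch_nonempty := F.arch_nonempty.product Finset.univ_nonempty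
  na p hp a b := by
    have hp1 : p.1 ∉ F.arch := fun h => hp (Finset.mem_product.2 ⟨h, Finset.mem_univ _⟩)
    have h := F.na p.1 hp1 (ch p.2 a) (ch p.2 b)
    rw [← map_add] at h
    exact h
  finite x hx := by
    have h1 : (⋃ j : J K₀ K₁, (fun i => (i, j)) '' {i | F.abv i (ch j x) ≠ 1}).Finite :=
      Set.finite_iUnion fun j => (F.finite (ch j x) (by simpa using hx)).image _
    refine h1.subset fun p hp => ?_
    rw [Set.mem_iUnion]
    exact ⟨p.2, ⟨p.1, hp, rfl⟩⟩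
  prod x hx hx0 := by
    have hne : ∀ j : J K₀ K₁, ch j x ≠ 0 := fun j => by simpa using hx0
    have hfin : ∀ y : Qb, y ≠ 0 → (Function.support fun i => Real.log (F.abv i y)).Finite := by
      intro y hy
      refine (F.finite y hy).subset fun i hi => ?_
      intro h
      apply hi
      simp only
      rw [h, Real.log_one]
    change ∑ᶠ p : F.ι × J K₀ K₁, Real.log (F.abv p.1 (ch p.2 x)) = 0
    rw [finsum_curry (fun p : F.ι × J K₀ K₁ => Real.log (F.abv p.1 (ch p.2 x)))]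
    · have h2 : ∀ i, ∑ᶠ j : J K₀ K₁, Real.log (F.abv i (ch j x)) =
          Real.log (F.abv i (∏ j : J K₀ K₁, ch j x)) := by
        intro i
        rw [finsum_eq_sum_of_fintype, map_prod, Real.log_prod]
        intro j _
        exact (F.abv i).ne_zero (hne j)
      rw [finsum_congr h2]
      exact F.prod _ (norm_mem hx) (Finset.prod_ne_zero_iff.2 fun j _ => hne j)
    · have h1 : (⋃ j : J K₀ K₁, (fun i => (i, j)) ''
          (Function.support fun i => Real.log (F.abv i (ch j x)))).Finite :=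
        Set.finite_iUnion fun j => (hfin _ (hne j)).image _
      refine h1.subset fun p hp => ?_
      rw [Set.mem_iUnion]
      exact ⟨p.2, ⟨p.1, hp, rfl⟩⟩
  arch_nat p hp n := by
    change F.abv p.1 (ch p.2 (n : Qb)) = n
    rw [map_natCast]
    exact F.arch_nat p.1 (Finset.mem_product.1 hp).1 n

theorem hn_fam (F : HFam K₀) [FiniteDimensional ℚ K₁] [Fintype (J K₀ K₁)]
    [Nonempty (J K₀ K₁)] {n : ℕ} (z : Fin n → Qb) :
    hn (fam (K₁ := K₁) F) z = ∑ j : J K₀ K₁, hn F fun i => ch j (z i) := by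
  change ∑ᶠ p : F.ι × J K₀ K₁, Real.log (szn (F.abv p.1) fun i => ch p.2 (z i)) = _
  rw [finsum_curry (fun p : F.ι × J K₀ K₁ => Real.log (szn (F.abv p.1) fun i => ch p.2 (z i)))]
  · rw [finsum_congr fun i => finsum_eq_sum_of_fintype _, finsum_sum_comm]
    · rfl
    · intro j _
      exact log_szn_finite F fun i => ch j (z i)
  · have h1 : (⋃ j : J K₀ K₁, (fun i => (i, j)) ''
        (Function.support fun i => Real.log (szn (F.abv i) fun l => ch j (z l)))).Finite :=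
      Set.finite_iUnion fun j => (log_szn_finite F _).image _
    refine h1.subset fun p hp => ?_
    rw [Set.mem_iUnion]
    exact ⟨p.2, ⟨p.1, hp, rfl⟩⟩

/-! ## The averages -/

/-- averages over a larger field -/
theorem pf_CNV : T_CNV := by
  classical
  intro K₀ K₁ F hle hfd
  have hf : Finite (K₁ →ₐ[ℚ] Qb) := inferInstance
  have hfJ : Fintype (J K₀ K₁) := Fintype.ofFinite _
  have hnJ : Nonempty (J K₀ K₁) := ⟨⟨res K₁ 1, ⟨1, rfl⟩⟩⟩
  refine ⟨fam F, Fintype.card (J K₀ K₁), Fintype.card_pos, ?_⟩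
  intro n y Γ₀ L₀ Γ₁ L₁ hG0 hG1 hy0 hy1
  have hn0 : Nonempty Γ₀ := hG0.ne.to_subtype
  have hn1 : Nonempty Γ₁ := hG1.ne.to_subtype
  have hnA : Nonempty (J K₀ K₁ × Γ₁) := inferInstance
  have hA : ∀ τ : Qb ≃ₐ[K₀] Qb, ∃ π : J K₀ K₁ × Γ₁ → J K₀ K₁ × Γ₁, Function.Injective π ∧
      ∀ a, (fun i => ch (π a).1 ((π a).2.1 (y i))) = τ • fun i => ch a.1 (a.2.1 (y i)) := by
    intro τ
    choose π hπ using fun j : J K₀ K₁ => hG1.perm (co τ j)
    refine ⟨fun a => (mv τ a.1, π a.1 a.2), ?_, ?_⟩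
    · rintro ⟨j, g⟩ ⟨j', g'⟩ h
      rw [Prod.mk.injEq] at h
      obtain rfl := mv_inj τ h.1
      have h2 := (π j).injective h.2
      simp only at h2
      rw [h2]
    · intro a
      funext i
      change ch (mv τ a.1) ((π a.1 a.2 : Qb ≃ₐ[K₁] Qb) (y i)) = τ (ch a.1 (a.2.1 (y i)))
      rw [← hπ a.1 a.2 (y i) (hy1 i), co_apply]
  have hB : ∀ τ : Qb ≃ₐ[K₀] Qb, ∃ π : Γ₀ → Γ₀, Function.Injective π ∧
      ∀ b, (fun i => (π b).1 (y i)) = τ • fun i => b.1 (y i) := by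
    intro τ
    obtain ⟨π, hπ⟩ := hG0.perm τ
    refine ⟨π, π.injective, fun b => ?_⟩
    funext i
    exact (hπ b (y i) (hy0 i)).symm
  have hAB : ∀ (a : J K₀ K₁ × Γ₁) (b : Γ₀), ∃ τ : Qb ≃ₐ[K₀] Qb,
      (fun i => b.1 (y i)) = τ • fun i => ch a.1 (a.2.1 (y i)) := by
    intro a b
    refine ⟨b.1 * (ch a.1 * dn hle a.2.1)⁻¹, ?_⟩
    funext i
    change b.1 (y i) = b.1 ((ch a.1 * dn hle a.2.1)⁻¹ ((ch a.1 * dn hle a.2.1) (y i)))
    congr 1
    exact ((ch a.1 * dn hle a.2.1).symm_apply_apply (y i)).symm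
  have key := sum_inv (G := Qb ≃ₐ[K₀] Qb)
    (fun a : J K₀ K₁ × Γ₁ => fun i => ch a.1 (a.2.1 (y i)))
    (fun b : Γ₀ => fun i => b.1 (y i)) hA hB hAB (fun z => hn F z)
  have e1 : avn (fam (K₁ := K₁) F) Γ₁ y =
      ∑ a : J K₀ K₁ × Γ₁, hn F fun i => ch a.1 (a.2.1 (y i)) := by
    unfold avn
    rw [Fintype.sum_prod_type_right, ← Finset.sum_coe_sort]
    exact Finset.sum_congr rfl fun g _ => hn_fam F _
  have e2 : avn F Γ₀ y = ∑ b : Γ₀, hn F fun i => b.1 (y i) := by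
    unfold avn
    rw [← Finset.sum_coe_sort]
  rw [e1, e2]
  simp only [Fintype.card_coe, Fintype.card_prod, Nat.cast_mul] at key
  rw [key]
  ring

end Pool.Agent.H11.TXB
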